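import Pool.Agent.V11135.Klarner.Seq

/-!
# Klarner's constant is the limit of a computable decreasing sequence of rational numbers

`t n` is the number of fixed `n`-ominoes and `λ = lim t(n) ^ (1 / n)`.  There is a strictly
decreasing sequence of rational numbers with limit `λ` whose numerators and denominators are
primitive recursive functions; so the answer to Q1 is yes.  Moreover, for every `N ≥ 1` some
`k ∈ [N, 5 N]` has `t(k) ≥ λ ^ k / (80 k ^ 3)`, that is
`λ ≤ max {(80 k ^ 3 t(k)) ^ (1 / k) : N ≤ k ≤ 5 N}`.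

Proof.  Let `a(n)` be the number of connected sets of `n` cells containing the origin.  As every
cell has at most `4` neighbours, a connected set of `n ≥ 2` cells is the disjoint union of two
connected sets of at least `(n - 1) / 4` cells (`balanced_cut`).  Hence
`a(n) ≤ ∑ 4 n a(i) a(n - i)`, where `(n - 1) / 4 ≤ i ≤ n / 2`, and `h(n) = 80 n ^ 2 a(n)` satisfies
`h(n) ≤ max h(i) h(n - i)` for these `i`.  By induction, if `h(k) ≤ x ^ k` for `N ≤ k ≤ 5 N` then
`h(n) ≤ x ^ n` for all `n ≥ N` (`window`), and `λ ≤ x`.  Let `p(N)` be the least number such that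
`x = p(N) / 2 ^ N` satisfies these inequalities (for `N + 1`).  The sequence is
`min {p(M) / 2 ^ M : M ≤ n} + 1 / (n + 1)`.  The function `a` is shown to be primitive recursive
by coding sets of cells by the binary digits of natural numbers and expressing connectedness with
bounded quantifiers.
-/

set_option autoImplicit false

open Filter Topology

namespace Pool.Agent.Results.MP_fc5d3b_co.ComputableUpperBounds

open Pool.Agent.V11135.Klarner

/-- The cells `[u, v]` of the square lattice are the points `(u, v)` of `ℤ × ℤ`; two cells are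
adjacent when they share an edge. -/
def cellGraph : SimpleGraph (ℤ × ℤ) where
  Adj c d := |c.1 - d.1| + |c.2 - d.2| = 1
  symm := ⟨fun c d h => by rw [abs_sub_comm d.1 c.1, abs_sub_comm d.2 c.2]; exact h⟩
  loopless := ⟨fun c h => by simp at h⟩

/-- An `n`-omino: a set of `n` cells which is connected under adjacency. -/
def IsOmino (n : ℕ) (S : Finset (ℤ × ℤ)) : Prop :=
  S.card = n ∧ (cellGraph.induce (S : Set (ℤ × ℤ))).Connected

/-- Two `n`-ominoes are equivalent when one is a translate of the other. -/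
def translation (n : ℕ) : Setoid {S : Finset (ℤ × ℤ) // IsOmino n S} where
  r S T := ∃ v : ℤ × ℤ, (T : Finset (ℤ × ℤ)) = (S : Finset (ℤ × ℤ)).map (addRightEmbedding v)
  iseqv := {
    refl := fun S => ⟨0, (tr_zero S.1).symm⟩
    symm := by
      rintro S T ⟨v, hv⟩
      refine ⟨-v, ?_⟩
      rw [hv]
      exact ((tr_tr (-v) v S.1).trans (by rw [add_neg_cancel, tr_zero])).symm
    trans := by
      rintro S T U ⟨v, hv⟩ ⟨w, hw⟩
      refine ⟨v + w, ?_⟩
      rw [hw, hv]
      exact tr_tr w v S.1 }

/-- The number `t(n)` of fixed `n`-ominoes, that is, of `n`-ominoes modulo translations. -/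
noncomputable def t (n : ℕ) : ℕ := Nat.card (Quotient (translation n))

lemma isOmino_iff {n : ℕ} {S : Finset (ℤ × ℤ)} : IsOmino n S ↔ S.card = n ∧ Conn grid S := by
  unfold IsOmino
  rw [conn_iff]
  exact Iff.rfl

lemma t_eq (n : ℕ) : t n = tt n := by
  classical
  have hN : ∀ S ∈ NN n, IsOmino n S := fun S hS => isOmino_iff.2
    ⟨(mem_NN.1 hS).2.1, (mem_NN.1 hS).1⟩
  let f : {S // S ∈ NN n} → Quotient (translation n) :=
    fun S => Quotient.mk (translation n) ⟨S.1, hN S.1 S.2⟩
  have hf : Function.Bijective f := by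
    constructor
    · rintro ⟨S, hS⟩ ⟨T, hT⟩ h
      obtain ⟨v, hv⟩ := Quotient.exact h
      change T = tr v S at hv
      apply Subtype.ext
      change S = T
      rw [mem_NN] at hS hT
      have h1 : (0, 0) ∈ tr v S := by rw [← hv]; exact hT.2.2.1
      have h2 : v ∈ T := by
        rw [hv, mem_tr, sub_self]; exact hS.2.2.1
      rw [mem_tr] at h1
      have h3 := hS.2.2.2 _ h1
      have h4 := hT.2.2.2 _ h2
      have h5 : v = 0 := by
        obtain ⟨v1, v2⟩ := v
        simp only [lexle, lexlt, Prod.mk.injEq, Prod.mk_sub_mk] at h3 h4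
        have : v1 = 0 ∧ v2 = 0 := by omega
        rw [this.1, this.2]; rfl
      rw [hv, h5, tr_zero]
    · intro q
      induction q using Quotient.inductionOn with
      | h S =>
        obtain ⟨S, hS⟩ := S
        have hS' := isOmino_iff.1 hS
        obtain ⟨x, hx, hmin⟩ := exists_lexmin hS'.2.1
        have hmem : tr (-x) S ∈ NN n := by
          rw [mem_NN, conn_tr, card_tr, mem_tr]
          refine ⟨hS'.2, hS'.1, by rw [show ((0, 0) : ℤ × ℤ) - -x = x by simp]; exact hx,
            fun c hc => ?_⟩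
          rw [mem_tr] at hc
          have := hmin _ hc
          obtain ⟨c1, c2⟩ := c
          obtain ⟨x1, x2⟩ := x
          simp only [lexle, lexlt, Prod.mk.injEq, Prod.neg_mk, Prod.mk_sub_mk] at this ⊢
          omega
        refine ⟨⟨tr (-x) S, hmem⟩, Quotient.sound ⟨x, ?_⟩⟩
        change S = tr x (tr (-x) S)
        rw [tr_tr, neg_add_cancel, tr_zero]
  unfold t
  rw [← Nat.card_eq_of_bijective f hf, Nat.card_eq_fintype_card, Fintype.card_coe]
  rfl

/-- (1) The limit `λ` of `t(n) ^ (1 / n)` exists.  (2) There is a computable (even primitive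
recursive) strictly decreasing sequence of rational numbers `β n = p n / q n` with limit `λ`.
(3) For every `N ≥ 1` there is `k` with `N ≤ k ≤ 5 N` and `λ ^ k ≤ 80 k ^ 3 t(k)`. -/
theorem result : ∃ lam : ℝ,
    Tendsto (fun n : ℕ => (t n : ℝ) ^ (1 / (n : ℝ))) atTop (𝓝 lam) ∧
    (∃ (β : ℕ → ℚ) (p q : ℕ → ℕ), Computable p ∧ Computable q ∧ Primrec p ∧ Primrec q ∧
      (∀ n, q n ≠ 0 ∧ β n = (p n : ℚ) / (q n : ℚ)) ∧
      StrictAnti β ∧ Tendsto (fun n => (β n : ℝ)) atTop (𝓝 lam)) ∧
    (∀ N : ℕ, 1 ≤ N → ∃ k : ℕ, N ≤ k ∧ k ≤ 5 * N ∧ lam ^ k ≤ 80 * (k : ℝ) ^ 3 * t k) := by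
  refine ⟨lam, ?_, ⟨beta, fun n => (n + 1) * bb n + 2 ^ n, fun n => 2 ^ n * (n + 1),
    prim_num.to_comp, prim_den.to_comp, prim_num, prim_den, fun n => ⟨by positivity, beta_eq n⟩,
    beta_anti, tendsto_beta⟩, fun N hN => ?_⟩
  · simp only [t_eq]
    exact tendsto_tt
  · obtain ⟨k, h1, h2, h3⟩ := exists_large hN
    exact ⟨k, h1, h2, by rw [t_eq]; exact h3⟩

end Pool.Agent.Results.MP_fc5d3b_co.ComputableUpperBounds
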